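import Mathlib
import Pool.Agent.H691R3.Places

/-!
# A lower bound for the weighted number of the places of bad reduction by the three radicals
-/

set_option autoImplicit false
set_option linter.unusedSectionVars false

namespace Q273.LF

open NumberField IsDedekindDomain Finset Pool.Agent.H691R3

variable {K : Type} [Field K] [NumberField K]

/-- the places, prime to `6`, where all twists have additive reduction not of type `I₀*` -/
def Add (j : K) (v : HeightOneSpectrum (𝓞 K)) : Prop :=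
  FinitePlace.mk v (2 : K) = 1 ∧ FinitePlace.mk v (3 : K) = 1 ∧ FinitePlace.mk v j ≤ 1 ∧
    ((∀ m : ℤ, FinitePlace.mk v j ≠ (Ideal.absNorm v.asIdeal : ℝ) ^ (3 * m)) ∨
      (∀ m : ℤ, FinitePlace.mk v (j - 1728) ≠ (Ideal.absNorm v.asIdeal : ℝ) ^ (2 * m)))

/-- `log N v` -/
noncomputable def lN (v : HeightOneSpectrum (𝓞 K)) : ℝ := Real.log (Ideal.absNorm v.asIdeal : ℝ)

lemma lN_pos (v : HeightOneSpectrum (𝓞 K)) : 0 < lN v := log_Nv_pos v

lemma zpow_log {v : HeightOneSpectrum (𝓞 K)} {x : ℝ} {k : ℤ} (h : x = (Nv v) ^ k) :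
    Real.log x = k * lN v := by
  rw [h, Real.log_zpow]
  rfl

lemma zpow_inj' {v : HeightOneSpectrum (𝓞 K)} {k l : ℤ} (h : (Nv v) ^ k = (Nv v) ^ l) : k = l := by
  have h1 := congrArg Real.log h
  rw [Real.log_zpow, Real.log_zpow] at h1
  have h2 := log_Nv_pos v
  have h3 : (k : ℝ) = l := mul_right_cancel₀ h2.ne' h1
  exact_mod_cast h3

lemma lt_one_iff {v : HeightOneSpectrum (𝓞 K)} {x : ℝ} {k : ℤ} (h : x = (Nv v) ^ k) :
    x < 1 ↔ k ≤ -1 := by
  have h2 := log_Nv_pos v
  have hN : (1 : ℝ) < Nv v := lt_of_lt_of_le one_lt_two (two_le_Nv v)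
  rw [h]
  constructor
  · intro h1
    by_contra h3
    have h4 : (0 : ℤ) ≤ k := by omega
    have := one_le_zpow₀ hN.le h4
    linarith
  · intro h1
    exact zpow_lt_one_of_neg₀ hN (by omega)

open Classical in
/-- the inequality at a place prime to `6` -/
lemma loc_pt {v : HeightOneSpectrum (𝓞 K)} (h2 : fv v (2 : K) = 1) (h3 : fv v (3 : K) = 1)
    {y : K} (h0 : y ≠ 0) (h1 : y ≠ 1) :
    (if fv v y < 1 then lN v else 0) + (if fv v (y - 1) < 1 then lN v else 0) +
      (if 1 < fv v y then lN v else 0) ≤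
    (if 1 < fv v (1728 * y) then lN v else 0) + (if Add (1728 * y) v then lN v else 0) / 2 +
      (Real.posLog (fv v y⁻¹) + Real.posLog (fv v (y - 1)⁻¹)) / 2 := by
  have hL := lN_pos v
  have e1728 : fv v (1728 : K) = 1 := by
    rw [show (1728 : K) = 2 ^ 6 * 3 ^ 3 by norm_num, map_mul, map_pow, map_pow, h2, h3]
    norm_num
  have ey : fv v (1728 * y) = fv v y := by rw [map_mul, e1728, one_mul]
  have ey1 : fv v (1728 * y - 1728) = fv v (y - 1) := by
    rw [show (1728 : K) * y - 1728 = 1728 * (y - 1) by ring, map_mul, e1728, one_mul]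
  obtain ⟨k, hk⟩ := fv_zpow v h0
  obtain ⟨l, hl⟩ := fv_zpow v (sub_ne_zero.2 h1)
  have hp1 : 0 ≤ Real.posLog (fv v y⁻¹) := Real.posLog_nonneg
  have hp2 : 0 ≤ Real.posLog (fv v (y - 1)⁻¹) := Real.posLog_nonneg
  have hp1' : -(k : ℝ) * lN v ≤ Real.posLog (fv v y⁻¹) := by
    have h : Real.log (fv v y⁻¹) ≤ Real.posLog (fv v y⁻¹) := le_max_right _ _
    rw [map_inv₀, Real.log_inv, zpow_log hk] at h
    rw [map_inv₀]
    linarith
  have hp2' : -(l : ℝ) * lN v ≤ Real.posLog (fv v (y - 1)⁻¹) := by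
    have h : Real.log (fv v (y - 1)⁻¹) ≤ Real.posLog (fv v (y - 1)⁻¹) := le_max_right _ _
    rw [map_inv₀, Real.log_inv, zpow_log hl] at h
    rw [map_inv₀]
    linarith
  have hadd0 : 0 ≤ (if Add (1728 * y) v then lN v else 0) := by split_ifs <;> linarith
  rw [ey]
  by_cases c1 : fv v y < 1
  · have hk1 := (lt_one_iff hk).1 c1
    have e1 : fv v (y - 1) = 1 := by
      have g1 := fv_na v (y - 1) 1
      have g2 := fv_na v y (-1)
      have g3 := fv_na v (y - 1) (-y)
      rw [show y - 1 + -y = (-1 : K) by ring] at g3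
      simp only [map_neg_eq_map, map_one, ← sub_eq_add_neg] at g2 g3
      refine le_antisymm (g2.trans (max_le c1.le le_rfl)) ?_
      rcases le_max_iff.1 g3 with g | g
      · exact g
      · linarith
    rw [if_pos c1, if_neg (by rw [e1]; exact lt_irrefl _), if_neg (not_lt.2 c1.le)]
    have hk1' : (k : ℝ) ≤ -1 := by exact_mod_cast hk1
    by_cases ha : Add (1728 * y) v
    · rw [if_pos ha]
      nlinarith
    · have h4 : ∃ m : ℤ, fv v (1728 * y) = (Nv v) ^ (3 * m) := by
        by_contra hcon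
        push Not at hcon
        apply ha
        refine ⟨h2, h3, ?_, Or.inl hcon⟩
        show fv v (1728 * y) ≤ 1
        rw [ey]
        exact c1.le
      obtain ⟨m, hm⟩ := h4
      rw [ey, hk] at hm
      have h5 := zpow_inj' hm
      have h6 : (k : ℝ) ≤ -3 := by
        have : k ≤ -3 := by omega
        exact_mod_cast this
      nlinarith
  · rw [if_neg c1]
    by_cases c2 : fv v (y - 1) < 1
    · have e1 : fv v y = 1 := by
        have g1 := fv_na v (y - 1) 1
        rw [sub_add_cancel, map_one] at g1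
        refine le_antisymm (g1.trans (max_le c2.le le_rfl)) (not_lt.1 c1)
      rw [if_pos c2, e1, if_neg (lt_irrefl _)]
      have hl1 := (lt_one_iff hl).1 c2
      have hl1' : (l : ℝ) ≤ -1 := by exact_mod_cast hl1
      by_cases ha : Add (1728 * y) v
      · rw [if_pos ha]
        nlinarith
      · have h4 : ∃ m : ℤ, fv v (1728 * y - 1728) = (Nv v) ^ (2 * m) := by
          by_contra hcon
          push Not at hcon
          apply ha
          refine ⟨h2, h3, ?_, Or.inr hcon⟩
          show fv v (1728 * y) ≤ 1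
          rw [ey, e1]
        obtain ⟨m, hm⟩ := h4
        rw [ey1, hl] at hm
        have h5 := zpow_inj' hm
        have h6 : (l : ℝ) ≤ -2 := by
          have : l ≤ -2 := by omega
          exact_mod_cast this
        nlinarith
    · rw [if_neg c2]
      split_ifs <;> linarith

/-- the finite part of the height -/
lemma sum_posLog (z : K) :
    ∑ᶠ v : HeightOneSpectrum (𝓞 K), Real.posLog (fv v z) ≤ Height.logHeight₁ z := by
  rw [NumberField.logHeight₁_eq]
  have h1 : ∑ᶠ w : FinitePlace K, Real.posLog (w z) =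
      ∑ᶠ v : HeightOneSpectrum (𝓞 K), Real.posLog (fv v z) := by
    rw [← finsum_comp_equiv (FinitePlace.equivHeightOneSpectrum (K := K)).symm]
    rfl
  rw [h1]
  have h2 : 0 ≤ ∑ w : InfinitePlace K, (w.mult : ℝ) * Real.posLog (w z) :=
    Finset.sum_nonneg fun w _ => mul_nonneg (Nat.cast_nonneg _) Real.posLog_nonneg
  linarith

open Classical in
/-- **the global inequality** -/
theorem loc_sum (K : Type) [Field K] [NumberField K] : ∃ C : ℝ, ∀ y : K, y ≠ 0 → y ≠ 1 →
    ∑ᶠ v : HeightOneSpectrum (𝓞 K), (if fv v y < 1 then lN v else 0) +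
      ∑ᶠ v : HeightOneSpectrum (𝓞 K), (if fv v (y - 1) < 1 then lN v else 0) +
      ∑ᶠ v : HeightOneSpectrum (𝓞 K), (if 1 < fv v y then lN v else 0) ≤
    ∑ᶠ v : HeightOneSpectrum (𝓞 K), (if 1 < fv v (1728 * y) then lN v else 0) +
      (∑ᶠ v : HeightOneSpectrum (𝓞 K), (if Add (1728 * y) v then lN v else 0)) / 2 +
      Height.logHeight₁ y + C := by
  have f2 := fv_support_finite (K := K) (two_ne_zero (α := K))
  have f3 := fv_support_finite (K := K) (three_ne_zero (α := K))
  set S6 : Finset (HeightOneSpectrum (𝓞 K)) := f2.toFinset ∪ f3.toFinset with hS6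
  have m6 : ∀ v, v ∉ S6 → fv v (2 : K) = 1 ∧ fv v (3 : K) = 1 := by
    intro v hv
    rw [hS6, Finset.mem_union, not_or, Set.Finite.mem_toFinset, Set.Finite.mem_toFinset] at hv
    exact ⟨not_not.1 hv.1, not_not.1 hv.2⟩
  refine ⟨∑ v ∈ S6, 2 * lN v + Height.totalWeight K * Real.log 2 / 2, fun y h0 h1 => ?_⟩
  have f0 := fv_support_finite (K := K) h0
  have f1 := fv_support_finite (K := K) (sub_ne_zero.2 h1)
  set T : Finset (HeightOneSpectrum (𝓞 K)) := f0.toFinset ∪ f1.toFinset ∪ S6 with hT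
  have mT : ∀ v, v ∉ T → fv v y = 1 ∧ fv v (y - 1) = 1 ∧ fv v (2 : K) = 1 ∧ fv v (3 : K) = 1 := by
    intro v hv
    rw [hT, Finset.mem_union, not_or, Finset.mem_union, not_or, Set.Finite.mem_toFinset,
      Set.Finite.mem_toFinset] at hv
    exact ⟨not_not.1 hv.1.1, not_not.1 hv.1.2, m6 v hv.2⟩
  have e1728 : ∀ v : HeightOneSpectrum (𝓞 K), fv v (2 : K) = 1 → fv v (3 : K) = 1 →
      fv v (1728 : K) = 1 := by
    intro v h2 h3
    rw [show (1728 : K) = 2 ^ 6 * 3 ^ 3 by norm_num, map_mul, map_pow, map_pow, h2, h3]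
    norm_num
  have conv : ∀ f : HeightOneSpectrum (𝓞 K) → ℝ, (∀ v, v ∉ T → f v = 0) →
      ∑ᶠ v, f v = ∑ v ∈ T, f v := by
    intro f hf
    refine finsum_eq_sum_of_support_subset _ ?_
    intro v hv
    by_contra hcon
    exact hv (hf v hcon)
  have c1 := conv (fun v => if fv v y < 1 then lN v else 0) (by
    intro v hv
    show (if fv v y < 1 then lN v else 0) = 0
    rw [(mT v hv).1, if_neg (lt_irrefl _)])
  have c2 := conv (fun v => if fv v (y - 1) < 1 then lN v else 0) (by
    intro v hv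
    show (if fv v (y - 1) < 1 then lN v else 0) = 0
    rw [(mT v hv).2.1, if_neg (lt_irrefl _)])
  have c3 := conv (fun v => if 1 < fv v y then lN v else 0) (by
    intro v hv
    show (if 1 < fv v y then lN v else 0) = 0
    rw [(mT v hv).1, if_neg (lt_irrefl _)])
  have c4 := conv (fun v => if 1 < fv v (1728 * y) then lN v else 0) (by
    intro v hv
    show (if 1 < fv v (1728 * y) then lN v else 0) = 0
    rw [map_mul, e1728 v (mT v hv).2.2.1 (mT v hv).2.2.2, (mT v hv).1, one_mul,
      if_neg (lt_irrefl _)])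
  have c5 := conv (fun v => if Add (1728 * y) v then lN v else 0) (by
    intro v hv
    show (if Add (1728 * y) v then lN v else 0) = 0
    rw [if_neg]
    rintro ⟨-, -, -, h | h⟩
    · apply h 0
      show fv v (1728 * y) = _
      rw [map_mul, e1728 v (mT v hv).2.2.1 (mT v hv).2.2.2, (mT v hv).1, one_mul, mul_zero,
        zpow_zero]
    · apply h 0
      show fv v (1728 * y - 1728) = _
      rw [show (1728 : K) * y - 1728 = 1728 * (y - 1) by ring, map_mul,
        e1728 v (mT v hv).2.2.1 (mT v hv).2.2.2, (mT v hv).2.1, one_mul, mul_zero, zpow_zero])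
  have c6 := conv (fun v => Real.posLog (fv v y⁻¹)) (by
    intro v hv
    show Real.posLog (fv v y⁻¹) = 0
    rw [map_inv₀, (mT v hv).1, inv_one, Real.posLog_one])
  have c7 := conv (fun v => Real.posLog (fv v (y - 1)⁻¹)) (by
    intro v hv
    show Real.posLog (fv v (y - 1)⁻¹) = 0
    rw [map_inv₀, (mT v hv).2.1, inv_one, Real.posLog_one])
  have g6 := sum_posLog (K := K) y⁻¹
  have g7 := sum_posLog (K := K) (y - 1)⁻¹
  rw [c6, Height.logHeight₁_inv] at g6
  rw [c7, Height.logHeight₁_inv] at g7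
  have g8 := Height.logHeight₁_sub_le y (1 : K)
  rw [Height.logHeight₁_one, add_zero] at g8
  rw [c1, c2, c3, c4, c5, ← Finset.sum_add_distrib, ← Finset.sum_add_distrib]
  have key : ∀ v ∈ T, ((if fv v y < 1 then lN v else 0) + (if fv v (y - 1) < 1 then lN v else 0) +
      (if 1 < fv v y then lN v else 0)) ≤
    (if 1 < fv v (1728 * y) then lN v else 0) + (if Add (1728 * y) v then lN v else 0) / 2 +
      (Real.posLog (fv v y⁻¹) + Real.posLog (fv v (y - 1)⁻¹)) / 2 +
      (if v ∈ S6 then 2 * lN v else 0) := by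
    intro v _
    by_cases hv : v ∈ S6
    · rw [if_pos hv]
      have hL := lN_pos v
      have q1 : 0 ≤ Real.posLog (fv v y⁻¹) := Real.posLog_nonneg
      have q2 : 0 ≤ Real.posLog (fv v (y - 1)⁻¹) := Real.posLog_nonneg
      by_cases d1 : fv v y < 1
      · rw [if_neg (not_lt.2 d1.le), if_pos d1]
        split_ifs <;> linarith
      · rw [if_neg d1]
        split_ifs <;> linarith
    · rw [if_neg hv, add_zero]
      exact loc_pt (m6 v hv).1 (m6 v hv).2 h0 h1
  have hsum := Finset.sum_le_sum key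
  have h6 : ∑ v ∈ T, (if v ∈ S6 then 2 * lN v else 0) ≤ ∑ v ∈ S6, 2 * lN v := by
    rw [← Finset.sum_filter]
    refine Finset.sum_le_sum_of_subset_of_nonneg (fun v hv => (Finset.mem_filter.1 hv).2) ?_
    intro v _ _
    have := lN_pos v
    linarith
  simp only [Finset.sum_add_distrib, ← Finset.sum_div] at hsum ⊢
  linarith

end Q273.LF
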