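import Mathlib
import Pool.Agent.Q273.LF.Loc
import Pool.Agent.Q273.AD.TrK
import Pool.Agent.Q273.ApxF
import Pool.Agent.Results.MP_2194ec_nt.LattesFamilies

/-!
# Lattès maps near almost every adelic point: the laws
-/

set_option autoImplicit false
set_option linter.unusedSectionVars false

namespace Q273.LF

open MeasureTheory NumberField IsDedekindDomain Finset Pool.Agent.H691R3 Height Polynomial
open Pool.Agent.W232.VA NumberField.mixedEmbedding NumberField.InfinitePlace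
open Q273.AD (FinAd FinA Ph1 Ph1_cont Ph1_inv prA up1A fae' AllK3 trk S3 FK dg cnd)
open Q273.MV (hh vec)
open Pool.Agent.Results.MP_9a3c31_nt.DegreeFreeLangSilverman
open Pool.Agent.Results.MP_2194ec_nt.LattesDegreeFree
open Pool.Agent.Results.MP_2194ec_nt.LattesFamilies (Exceptional TwoPoles)

variable {K : Type} [Field K] [NumberField K]

open scoped Classical in
/-- countably many thin sets, almost every adelic point -/
theorem thin [MeasurableSpace (FinA K)] [BorelSpace (FinA K)] (μ : Measure (FinA K))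
    [IsFiniteMeasure μ] [μ.IsAddLeftInvariant] {ι : Type} [Countable ι] (S : ι → Set K) (s : ι → ℝ)
    (hs : ∀ i, 0 ≤ s i)
    (hS : ∀ i, ∀ δ : ℝ, 0 < δ → ∃ C : ℝ, ∀ X : ℝ, 1 ≤ X → {x | x ∈ S i ∧ mulHeight₁ x ≤ X}.Finite ∧
      ({x | x ∈ S i ∧ mulHeight₁ x ≤ X}.ncard : ℝ) ≤ C * X ^ (s i + δ)) :
    ∀ᵐ u : mixedSpace K × FinA K ∂(volume.prod μ), ∀ (i : ι)
      (V : Finset (HeightOneSpectrum (𝓞 K))) (ε : ℝ), 0 < ε →
      {x : K | x ∈ S i ∧ (s i + ε) * logHeight₁ x ≤ prA V ((fun _ => u.1, Ph1 u.2) :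
        (Fin 1 → mixedSpace K) × FinAd K 1) (fun _ => x)}.Finite := by
  have : Countable K := Q273.Apx.countable_numberField K
  letI : MeasurableSpace (FinAd K 1) := borel _
  haveI : BorelSpace (FinAd K 1) := ⟨rfl⟩
  haveI : (μ.map (Ph1 (K := K))).IsAddLeftInvariant := Ph1_inv μ
  have key : ∀ i : ι, ∀ᵐ p : (Fin 1 → mixedSpace K) × FinAd K 1
      ∂(volume.prod (μ.map (Ph1 (K := K)))),
      ∀ V : Finset (HeightOneSpectrum (𝓞 K)), ∀ ε : ℝ, 0 < ε → ∃ C : ℝ, ∀ x ∈ S i,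
      ((1 : ℕ) : ℝ) * prA V p (fun _ => x) ≤ (s i + ε) * Real.log (mulHeight₁ x) + C := by
    intro i
    exact up1A fae' (n := 1) le_rfl (μ.map (Ph1 (K := K))) (fun (x : K) (_ : Fin 1) => x)
      (fun x => mulHeight₁ x) (S i) (fun x _ => one_le_mulHeight₁ x) (hs i) (hS i)
  have h1 : ∀ᵐ p : (Fin 1 → mixedSpace K) × FinAd K 1
      ∂(volume.prod (μ.map (Ph1 (K := K)))), ∀ (i : ι)
      (V : Finset (HeightOneSpectrum (𝓞 K))) (ε : ℝ), 0 < ε →
      {x : K | x ∈ S i ∧ (s i + ε) * logHeight₁ x ≤ prA V p (fun _ => x)}.Finite := by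
    filter_upwards [ae_all_iff.2 key] with p hp
    intro i V ε hε
    obtain ⟨C, hC⟩ := hp i V (ε / 2) (by positivity)
    refine (NumberField.finite_setOfPred_logHeight₁_le K (2 * C / ε)).subset ?_
    rintro x ⟨hx1, hx2⟩
    have h3 := hC x hx1
    rw [Nat.cast_one, one_mul] at h3
    have h4 : Real.log (mulHeight₁ x) = logHeight₁ x := rfl
    rw [h4] at h3
    show logHeight₁ x ≤ 2 * C / ε
    rw [le_div_iff₀ hε]
    nlinarith
  have h2 : MeasurePreserving (Ph1 (K := K)) μ (μ.map (Ph1 (K := K))) :=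
    ⟨Ph1_cont.measurable, rfl⟩
  have h0 : MeasurePreserving (fun (x : mixedSpace K) (_ : Fin 1) => x) volume volume :=
    (volume_preserving_funUnique (Fin 1) (mixedSpace K)).symm
  have h3 := h0.prod h2
  exact h3.quasiMeasurePreserving.ae h1

/-- monotonicity of the bound -/
theorem lehmer_mono {κ κ' c c' : ℝ} {j : K} (h : Lehmer κ' c' j) (hκ : κ ≤ κ') (hc : c ≤ c') :
    Lehmer κ c j := by
  have h0 : 0 ≤ absH j := div_nonneg (zero_le_logHeight₁ j) (Nat.cast_nonneg _)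
  intro L _ _ _ hL a b hD hj m φ hm hφ v hv hw
  obtain ⟨ht, h1, h2⟩ := h L (hL.trans (mul_le_mul_of_nonneg_left
    (Real.exp_le_exp.2 (mul_le_mul_of_nonneg_right hκ h0))
    (Real.rpow_nonneg (abs_nonneg _) _))) a b hD hj m φ hm hφ v hv hw
  exact ⟨ht, h1, (mul_le_mul_of_nonneg_right hc (by linarith)).trans h2⟩

/-- the elements `y` such that the bound fails at `1728 y` -/
def Ex (K : Type) [Field K] [NumberField K] (θ κ : ℝ) : Set K :=
  {y : K | y ≠ 0 ∧ y ≠ 1 ∧ ¬ Lehmer κ (θ ^ 6 / 290000) (1728 * y)}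

/-- the first count -/
theorem count1 (K : Type) [Field K] [NumberField K] {θ κ : ℝ} (hθ : 0 < θ) (hθ1 : θ ≤ 1)
    (hκ : 0 ≤ κ) (δ : ℝ) (hδ : 0 < δ) : ∃ C : ℝ, ∀ X : ℝ, 1 ≤ X →
      {x | x ∈ Ex K θ κ ∧ mulHeight₁ x ≤ X}.Finite ∧
      ({x | x ∈ Ex K θ κ ∧ mulHeight₁ x ≤ X}.ncard : ℝ) ≤
        C * X ^ ((1 / 3 + 4 / 3 * (θ + κ)) + δ) := by
  have hn : (0 : ℝ) < Module.finrank ℚ K := by exact_mod_cast Module.finrank_pos
  obtain ⟨C, hC, h⟩ := Pool.Agent.Results.MP_2194ec_nt.LattesDegreeFree.result.2.1 θ κ δ hθ hθ1 hκ hδ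
  set c0 : ℝ := mulHeight₁ (1728 : K) with hc0
  have hc1 : 1 ≤ c0 := one_le_mulHeight₁ _
  set e : ℝ := 1 / 3 + 4 / 3 * (θ + κ) + δ with he
  have he0 : 0 < e := by positivity
  refine ⟨C ^ Module.finrank ℚ K * c0 ^ e, fun X hX => ?_⟩
  have hX0 : (0 : ℝ) < X := by linarith
  have hXc : 1 ≤ X * c0 := one_le_mul_of_one_le_of_one_le hX hc1
  set B : ℝ := (X * c0) ^ (1 / (Module.finrank ℚ K : ℝ)) with hB
  have hB1 : 1 ≤ B := Real.one_le_rpow hXc (by positivity)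
  obtain ⟨h1, h2⟩ := h K B hB1
  have hlog : (Module.finrank ℚ K : ℝ) * Real.log B = Real.log (X * c0) := by
    rw [hB, Real.log_rpow (by linarith)]
    field_simp
  have hinj : Function.Injective fun y : K => 1728 * y := by
    intro a b hab
    exact mul_left_cancel₀ (by norm_num : (1728 : K) ≠ 0) hab
  have hsub : (fun y : K => 1728 * y) '' {x | x ∈ Ex K θ κ ∧ mulHeight₁ x ≤ X} ⊆
      {j ∈ Inv K B | ¬ Lehmer κ (θ ^ 6 / 290000) j} := by
    rintro _ ⟨y, ⟨⟨h3, h4, h5⟩, h6⟩, rfl⟩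
    refine ⟨⟨mul_ne_zero (by norm_num) h3, ?_, ?_⟩, h5⟩
    · intro h7
      apply h4
      have : (1728 : K) * y = 1728 * 1 := by rw [mul_one]; exact h7
      exact mul_left_cancel₀ (by norm_num) this
    · rw [hlog]
      have h7 := logHeight₁_mul_le (1728 : K) y
      have h8 : logHeight₁ y ≤ Real.log X :=
        Real.log_le_log (mulHeight₁_pos y) h6
      rw [Real.log_mul hX0.ne' (by linarith)]
      have h9 : logHeight₁ (1728 : K) = Real.log c0 := rfl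
      show logHeight₁ (1728 * y) ≤ _
      linarith
  have hfin : ({j ∈ Inv K B | ¬ Lehmer κ (θ ^ 6 / 290000) j} : Set K).Finite :=
    h1.subset fun j hj => hj.1
  have hfin2 : {x | x ∈ Ex K θ κ ∧ mulHeight₁ x ≤ X}.Finite :=
    Set.Finite.of_finite_image (hfin.subset hsub) hinj.injOn
  refine ⟨hfin2, ?_⟩
  have h3 : ({x | x ∈ Ex K θ κ ∧ mulHeight₁ x ≤ X}.ncard : ℝ) ≤
      ((({j ∈ Inv K B | ¬ Lehmer κ (θ ^ 6 / 290000) j} : Set K).ncard : ℕ) : ℝ) := by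
    rw [← Set.ncard_image_of_injective _ hinj]
    exact_mod_cast Set.ncard_le_ncard hsub hfin
  refine h3.trans (h2.trans (le_of_eq ?_))
  rw [mul_pow, ← Real.rpow_natCast (B ^ _), ← Real.rpow_mul (by linarith), hB,
    ← Real.rpow_mul (by linarith)]
  rw [show 1 / (Module.finrank ℚ K : ℝ) * (e * (Module.finrank ℚ K : ℝ)) = e by field_simp,
    Real.mul_rpow hX0.le (by linarith)]
  ring

open scoped Classical in
/-- the inequality of the three radicals and the places of bad reduction -/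
theorem S3_le (K : Type) [Field K] [NumberField K] : ∃ C : ℝ, ∀ y : K, y ≠ 0 → y ≠ 1 →
    S3 y ≤ poleCount (1728 * y) + addCount (1728 * y) / 2 + logHeight₁ y + C := by
  obtain ⟨C, hC⟩ := loc_sum K
  refine ⟨C, fun y h0 h1 => ?_⟩
  have h2 := hC y h0 h1
  have hd : (Module.finrank ℚ K : ℝ) ≠ 0 := by
    have : 0 < Module.finrank ℚ K := Module.finrank_pos
    positivity
  have e : ∀ z : K, dg K * cnd z = ∑ᶠ v : HeightOneSpectrum (𝓞 K),
      (if fv v z < 1 then lN v else 0) := by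
    intro z
    show (Module.finrank ℚ K : ℝ) * ((1 / (Module.finrank ℚ K : ℝ)) * _) = _
    rw [← mul_assoc, mul_one_div_cancel hd, one_mul]
    rfl
  have e3 : dg K * cnd y⁻¹ = ∑ᶠ v : HeightOneSpectrum (𝓞 K),
      (if 1 < fv v y then lN v else 0) := by
    rw [e]
    refine finsum_congr fun v => ?_
    have hpos : 0 < fv v y := (fv v).pos h0
    have : fv v y⁻¹ < 1 ↔ 1 < fv v y := by
      rw [map_inv₀, inv_lt_one₀ hpos]
    simp only [this]
  unfold S3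
  rw [mul_add, mul_add, e y, e3, e (y - 1)]
  have e4 : poleCount (1728 * y) = ∑ᶠ v : HeightOneSpectrum (𝓞 K),
      (if 1 < fv v (1728 * y) then lN v else 0) := rfl
  have e5 : addCount (1728 * y) = ∑ᶠ v : HeightOneSpectrum (𝓞 K),
      (if Add (1728 * y) v then lN v else 0) := rfl
  rw [e4, e5]
  linarith

lemma hh_log (y : K) : hh y = logHeight₁ y := by
  show Real.log (mulHeight (vec y)) = _
  have h : vec y = ![1, y] := by
    funext i
    fin_cases i <;> rfl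
  rw [h, logHeight₁_eq_logHeight, logHeight_eq_log_mulHeight, mulHeight_swap]

/-- the second count -/
theorem count2 (K : Type) [Field K] [NumberField K] {θ κ : ℝ} (hθ : 0 < θ) (hθ1 : θ ≤ 1)
    (hκ : 0 ≤ κ) (hs2 : θ + κ ≤ 2) (δ : ℝ) (hδ : 0 < δ) : ∃ C : ℝ, ∀ X : ℝ, 1 ≤ X →
      {x | x ∈ Ex K θ κ ∧ mulHeight₁ x ≤ X}.Finite ∧
      ({x | x ∈ Ex K θ κ ∧ mulHeight₁ x ≤ X}.ncard : ℝ) ≤ C * X ^ (FK (1 + (θ + κ)) + δ) := by
  have hn : (0 : ℝ) < Module.finrank ℚ K := by exact_mod_cast Module.finrank_pos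
  obtain ⟨C0, hC0, h0⟩ := Pool.Agent.Results.MP_2194ec_nt.LattesDegreeFree.result.1
  obtain ⟨C3, hC3⟩ := S3_le K
  set s : ℝ := θ + κ with hs
  have hs0 : 0 < s := by positivity
  set c7 : ℝ := logHeight₁ (1728 : K) with hc7
  have hc70 : 0 ≤ c7 := zero_le_logHeight₁ _
  set Y : ℝ := Module.finrank ℚ K * (C0 / θ ^ 2) + c7 with hY
  have hfin0 := NumberField.finite_setOfPred_logHeight₁_le K Y
  obtain ⟨C, hC⟩ := Q273.AD.countLam K (1 + s) (s * c7 + C3) (by linarith) (by linarith) δ hδ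
  have hinc : ∀ y : K, y ∈ Ex K θ κ → logHeight₁ y ≤ Y ∨
      y ∈ Q273.AD.SmL K (1 + s) (s * c7 + C3) := by
    rintro y ⟨h1, h2, h3⟩
    by_cases h4 : logHeight₁ y ≤ Y
    · exact Or.inl h4
    right
    push Not at h4
    have h5 : logHeight₁ y ≤ c7 + logHeight₁ (1728 * y) := by
      have h6 := logHeight₁_mul_le ((1728 : K)⁻¹) (1728 * y)
      rw [logHeight₁_inv, inv_mul_cancel_left₀ (by norm_num)] at h6
      exact h6
    have h7 : C0 / θ ^ 2 ≤ absH (1728 * y) := by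
      unfold absH
      rw [le_div_iff₀ hn]
      linarith
    have h8 : poleCount (1728 * y) + addCount (1728 * y) / 2 <
        s * logHeight₁ (1728 * y) := by
      by_contra h9
      push Not at h9
      apply h3
      refine h0 θ κ hθ hθ1 K (1728 * y) (mul_ne_zero (by norm_num) h1) ?_ h9 h7
      intro h10
      apply h2
      have : (1728 : K) * y = 1728 * 1 := by rw [mul_one]; exact h10
      exact mul_left_cancel₀ (by norm_num) this
    have h9 := hC3 y h1 h2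
    have h10 := logHeight₁_mul_le (1728 : K) y
    refine ⟨h1, h2, ?_⟩
    rw [hh_log]
    have h11 : s * logHeight₁ (1728 * y) ≤ s * (c7 + logHeight₁ y) :=
      mul_le_mul_of_nonneg_left h10 hs0.le
    linarith
  refine ⟨{y : K | logHeight₁ y ≤ Y}.ncard + |C|, fun X hX => ?_⟩
  obtain ⟨h1, h2⟩ := hC X hX
  have hsub : {x | x ∈ Ex K θ κ ∧ mulHeight₁ x ≤ X} ⊆ {y : K | logHeight₁ y ≤ Y} ∪
      {y : K | y ∈ Q273.AD.SmL K (1 + s) (s * c7 + C3) ∧ mulHeight (vec y) ≤ X} := by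
    rintro y ⟨hy1, hy2⟩
    rcases hinc y hy1 with h3 | h3
    · exact Or.inl h3
    · refine Or.inr ⟨h3, ?_⟩
      have h4 := hh_log y
      have h5 : mulHeight (vec y) = mulHeight₁ y := by
        have h6 : 0 < mulHeight (vec y) := mulHeight_pos _
        exact Real.log_injOn_pos h6 (mulHeight₁_pos y) h4
      rw [h5]
      exact hy2
  have hfin : ({y : K | logHeight₁ y ≤ Y} ∪
      {y : K | y ∈ Q273.AD.SmL K (1 + s) (s * c7 + C3) ∧ mulHeight (vec y) ≤ X}).Finite :=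
    hfin0.union h1
  refine ⟨hfin.subset hsub, ?_⟩
  have hF : 0 ≤ FK (1 + s) := Q273.AD.FK_nonneg (by linarith)
  have hX1 : 1 ≤ X ^ (FK (1 + s) + δ) := Real.one_le_rpow hX (by linarith)
  have h3 : ({x | x ∈ Ex K θ κ ∧ mulHeight₁ x ≤ X}.ncard : ℝ) ≤
      ({y : K | logHeight₁ y ≤ Y}.ncard : ℝ) +
      ({y : K | y ∈ Q273.AD.SmL K (1 + s) (s * c7 + C3) ∧ mulHeight (vec y) ≤ X}.ncard : ℝ) := by
    have h4 := (Set.ncard_le_ncard hsub hfin).trans (Set.ncard_union_le _ _)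
    exact_mod_cast h4
  have h4 : C * X ^ (FK (1 + s) + δ) ≤ |C| * X ^ (FK (1 + s) + δ) :=
    mul_le_mul_of_nonneg_right (le_abs_self C) (by linarith)
  have h5 : (0 : ℝ) ≤ ({y : K | logHeight₁ y ≤ Y}.ncard : ℝ) := Nat.cast_nonneg _
  nlinarith

/-- the exponent -/
noncomputable def Gx (s : ℝ) : ℝ :=
  if s ≤ 11 / 34 then 1 / 3 + 4 * s / 3
  else if s ≤ 1 / 2 then 9 / 16 + 5 * s / 8
  else if s ≤ 7 / 12 then 5 / 8 + s / 2
  else if s ≤ 2 / 3 then 1 / 3 + s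
  else if s ≤ 1 then 1
  else s

lemma Gx_nonneg {s : ℝ} (h : 0 ≤ s) : 0 ≤ Gx s := by
  unfold Gx
  split_ifs <;> linarith

lemma Gx_lip {s t : ℝ} (h : s ≤ t) : Gx t ≤ Gx s + 2 * (t - s) := by
  unfold Gx
  split_ifs <;> linarith

lemma FK_le_Gx {s : ℝ} (h : 11 / 34 < s) : FK (1 + s) ≤ Gx s := by
  unfold Gx Q273.AD.FK
  rw [if_neg (by linarith : ¬ 1 + s ≤ 1), if_neg (by linarith : ¬ s ≤ 11 / 34)]
  unfold Pool.Agent.Results.MP_4d5ce1_nt.ExceptionalSetExponents.expoThree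
  rw [show 3 - (1 + s) = 2 - s by ring]
  by_cases c1 : 2 - s ≤ 1
  · rw [if_pos c1]
    split_ifs <;> linarith
  rw [if_neg c1]
  by_cases c2 : 2 - s ≤ 4 / 3
  · rw [if_pos c2]
    split_ifs <;> linarith
  rw [if_neg c2]
  by_cases c3 : 2 - s ≤ 17 / 12
  · rw [if_pos c3]
    split_ifs <;> linarith
  rw [if_neg c3]
  by_cases c4 : 2 - s ≤ 3 / 2
  · rw [if_pos c4]
    split_ifs <;> linarith
  rw [if_neg c4, if_pos (by linarith)]
  split_ifs <;> linarith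

/-- the count of the exceptional invariants -/
theorem countG (K : Type) [Field K] [NumberField K] {θ κ : ℝ} (hθ : 0 < θ) (hθ1 : θ ≤ 1)
    (hκ : 0 ≤ κ) (hs2 : θ + κ ≤ 2) (δ : ℝ) (hδ : 0 < δ) : ∃ C : ℝ, ∀ X : ℝ, 1 ≤ X →
      {x | x ∈ Ex K θ κ ∧ mulHeight₁ x ≤ X}.Finite ∧
      ({x | x ∈ Ex K θ κ ∧ mulHeight₁ x ≤ X}.ncard : ℝ) ≤ C * X ^ (Gx (θ + κ) + δ) := by
  by_cases hs : θ + κ ≤ 11 / 34
  · obtain ⟨C, hC⟩ := count1 K hθ hθ1 hκ δ hδ
    have e : Gx (θ + κ) = 1 / 3 + 4 / 3 * (θ + κ) := by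
      unfold Gx
      rw [if_pos hs]
      ring
    rw [e]
    exact ⟨C, hC⟩
  · push Not at hs
    obtain ⟨C, hC⟩ := count2 K hθ hθ1 hκ hs2 δ hδ
    refine ⟨|C|, fun X hX => ⟨(hC X hX).1, (hC X hX).2.trans ?_⟩⟩
    have h1 : X ^ (FK (1 + (θ + κ)) + δ) ≤ X ^ (Gx (θ + κ) + δ) :=
      Real.rpow_le_rpow_of_exponent_le hX (by linarith [FK_le_Gx hs])
    have h2 : (0 : ℝ) ≤ X ^ (FK (1 + (θ + κ)) + δ) := Real.rpow_nonneg (by linarith) _
    exact (mul_le_mul_of_nonneg_right (le_abs_self C) h2).trans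
      (mul_le_mul_of_nonneg_left h1 (abs_nonneg C))

/-- the parameters of a family for which the bound fails -/
def ExF (F G : K[X]) (θ κ : ℝ) : Set K :=
  {t : K | ¬ (G.eval t ≠ 0 ∧ Lehmer κ (θ ^ 6 / 290000) (F.eval t / G.eval t))}

theorem countF (K : Type) [Field K] [NumberField K] (F G : K[X]) (hFG : IsCoprime F G)
    (hG : G ≠ 0) (hne : 0 < F.natDegree ∨ 0 < G.natDegree) : ∃ A : ℝ, 0 < A ∧
    (TwoPoles K F G → ∀ θ κ : ℝ, 0 < θ → θ ≤ 1 → 0 ≤ κ → ∀ δ : ℝ, 0 < δ → ∃ C : ℝ, ∀ X : ℝ, 1 ≤ X →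
      {x | x ∈ ExF F G θ κ ∧ mulHeight₁ x ≤ X}.Finite ∧
      ({x | x ∈ ExF F G θ κ ∧ mulHeight₁ x ≤ X}.ncard : ℝ) ≤ C * X ^ (A * (θ + κ) + δ)) := by
  obtain ⟨A, hA, h⟩ :=
    Pool.Agent.Results.MP_2194ec_nt.LattesFamilies.result.1 K F G hFG hG hne
  refine ⟨A, hA, fun hT θ κ hθ hθ1 hκ δ hδ => ?_⟩
  obtain ⟨C, hC, h1⟩ := h (Module.finrank ℚ K) θ κ δ hθ hθ1 hκ hδ
  refine ⟨C, fun X hX => ?_⟩
  obtain ⟨h2, h3, h4⟩ := h1 K le_rfl X hX
  have e : {x | x ∈ ExF F G θ κ ∧ mulHeight₁ x ≤ X} = Exceptional F G K θ κ X := by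
    ext x
    unfold ExF Exceptional
    simp only [Set.mem_ofPred_eq, Algebra.algebraMap_self, Polynomial.map_id]
    exact and_comm
  rw [e]
  exact ⟨h2, h4 hT⟩

end Q273.LF
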