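import Mathlib
import Pool.Agent.Q273.LF.Law

/-!
# Lattès maps near almost every adelic point: real parameters
-/

set_option autoImplicit false
set_option linter.unusedSectionVars false

namespace Q273.LF

open MeasureTheory NumberField IsDedekindDomain Finset Pool.Agent.H691R3 Height Polynomial
open Pool.Agent.W232.VA NumberField.mixedEmbedding NumberField.InfinitePlace
open Q273.AD (FinAd FinA Ph1 prA pw pv AllK3 trk dg)
open Q273.MV (hh vec)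
open Pool.Agent.Results.MP_2194ec_nt.LattesDegreeFree
open Pool.Agent.Results.MP_2194ec_nt.LattesFamilies (TwoPoles)

variable {K : Type} [Field K] [NumberField K]

/-- the families -/
def Fam (K : Type) [Field K] [NumberField K] : Set (K[X] × K[X]) :=
  {f | IsCoprime f.1 f.2 ∧ f.2 ≠ 0 ∧ TwoPoles K f.1 f.2}

theorem countable_polyK (K : Type) [Field K] [NumberField K] : Countable K[X] := by
  have : Countable K := Q273.Apx.countable_numberField K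
  rw [← Cardinal.mk_le_aleph0_iff]
  refine (Polynomial.cardinalMk_le_max (R := K)).trans ?_
  simp [Cardinal.mk_le_aleph0]

theorem two_deg {F G : K[X]} (hG : G ≠ 0) (h : TwoPoles K F G) :
    0 < F.natDegree ∨ 0 < G.natDegree := by
  rcases h with ⟨x, y, _, hx, _⟩ | ⟨h1, _⟩
  · right
    by_contra h0
    have h1 : G.natDegree = 0 := by omega
    rw [Polynomial.eq_C_of_natDegree_eq_zero h1, aeval_C] at hx
    have h2 : G.coeff 0 = 0 := by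
      exact (FaithfulSMul.algebraMap_injective K (AlgebraicClosure K)) (by rw [hx, map_zero])
    apply hG
    rw [Polynomial.eq_C_of_natDegree_eq_zero h1, h2, map_zero]
  · exact Or.inr h1

/-- the numbers attached to the families -/
theorem exists_A (K : Type) [Field K] [NumberField K] : ∃ A : K[X] × K[X] → ℝ, (∀ f, 0 < A f) ∧
    ∀ f ∈ Fam K, ∀ θ κ : ℝ, 0 < θ → θ ≤ 1 → 0 ≤ κ → ∀ δ : ℝ, 0 < δ → ∃ C : ℝ, ∀ X : ℝ, 1 ≤ X →
      {x | x ∈ ExF f.1 f.2 θ κ ∧ mulHeight₁ x ≤ X}.Finite ∧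
      ({x | x ∈ ExF f.1 f.2 θ κ ∧ mulHeight₁ x ≤ X}.ncard : ℝ) ≤
        C * X ^ (A f * (θ + κ) + δ) := by
  classical
  have h : ∀ f : K[X] × K[X], ∃ A : ℝ, 0 < A ∧ (f ∈ Fam K →
      ∀ θ κ : ℝ, 0 < θ → θ ≤ 1 → 0 ≤ κ → ∀ δ : ℝ, 0 < δ → ∃ C : ℝ, ∀ X : ℝ, 1 ≤ X →
      {x | x ∈ ExF f.1 f.2 θ κ ∧ mulHeight₁ x ≤ X}.Finite ∧
      ({x | x ∈ ExF f.1 f.2 θ κ ∧ mulHeight₁ x ≤ X}.ncard : ℝ) ≤
        C * X ^ (A * (θ + κ) + δ)) := by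
    intro f
    by_cases hf : f ∈ Fam K
    · obtain ⟨h1, h2, h3⟩ := hf
      obtain ⟨A, hA, h4⟩ := countF K f.1 f.2 h1 h2 (two_deg h2 h3)
      exact ⟨A, hA, fun _ => h4 h3⟩
    · exact ⟨1, one_pos, fun h => absurd h hf⟩
  choose A hA h using h
  exact ⟨A, hA, fun f hf => h f hf⟩

/-- rational parameters slightly above -/
theorem exists_rat {θ κ ρ : ℝ} (hθ : 0 < θ) (hθ1 : θ ≤ 1) (hκ : 0 ≤ κ) (hρ : 0 < ρ) :
    ∃ a b : ℚ, θ ≤ a ∧ (a : ℝ) ≤ 1 ∧ κ ≤ b ∧ (a : ℝ) + b ≤ θ + κ + ρ := by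
  obtain ⟨b, hb1, hb2⟩ := exists_rat_btwn (show κ < κ + ρ / 2 by linarith)
  rcases hθ1.eq_or_lt with h | h
  · exact ⟨1, b, by rw [h]; norm_num, by norm_num, hb1.le, by push_cast; linarith⟩
  · obtain ⟨a, ha1, ha2⟩ := exists_rat_btwn (show θ < min 1 (θ + ρ / 2) from
      lt_min h (by linarith))
    exact ⟨a, b, ha1.le, (ha2.trans_le (min_le_left _ _)).le, hb1.le, by
      have := ha2.trans_le (min_le_right _ _)
      linarith⟩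

lemma six_mono {θ a : ℝ} (hθ : 0 < θ) (h : θ ≤ a) : θ ^ 6 / 290000 ≤ a ^ 6 / 290000 := by
  have : θ ^ 6 ≤ a ^ 6 := pow_le_pow_left₀ hθ.le h 6
  linarith

lemma Ex_mono {θ κ a b : ℝ} (hθ : 0 < θ) (h1 : θ ≤ a) (h2 : κ ≤ b) : Ex K θ κ ⊆ Ex K a b := by
  rintro y ⟨h3, h4, h5⟩
  exact ⟨h3, h4, fun h6 => h5 (lehmer_mono h6 h2 (six_mono hθ h1))⟩

lemma ExF_mono {F G : K[X]} {θ κ a b : ℝ} (hθ : 0 < θ) (h1 : θ ≤ a) (h2 : κ ≤ b) :
    ExF F G θ κ ⊆ ExF F G a b := by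
  intro y h3 h6
  exact h3 ⟨h6.1, lehmer_mono h6.2 h2 (six_mono hθ h1)⟩

/-- the laws at an adelic point -/
def Laws (A : K[X] × K[X] → ℝ) (p : (Fin 1 → mixedSpace K) × FinAd K 1) : Prop :=
  ∀ V : Finset (HeightOneSpectrum (𝓞 K)),
    (∀ θ κ ε : ℝ, 0 < θ → θ ≤ 1 → 0 ≤ κ → 0 < ε →
      (θ + κ < 2 → {y : K | y ∈ Ex K θ κ ∧
        (Gx (θ + κ) + ε) * logHeight₁ y ≤ prA V p (fun _ => y)}.Finite) ∧
      ∀ f ∈ Fam K, {t : K | t ∈ ExF f.1 f.2 θ κ ∧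
        (A f * (θ + κ) + ε) * logHeight₁ t ≤ prA V p (fun _ => t)}.Finite) ∧
    ∀ δ : ℝ, δ < 2 → {y : K | δ * logHeight₁ y ≤ prA V p (fun _ => y)}.Infinite

open scoped Classical in
theorem inf_of {p : (Fin 1 → mixedSpace K) × FinAd K 1} (hp : AllK3 p)
    (V : Finset (HeightOneSpectrum (𝓞 K))) (δ : ℝ) (hδ : δ < 2) :
    {y : K | δ * logHeight₁ y ≤ prA V p (fun _ => y)}.Infinite := by
  intro hfin
  obtain ⟨w0⟩ : Nonempty (InfinitePlace K) := inferInstance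
  obtain ⟨B, hB⟩ := (hfin.image fun y => hh y).bddAbove
  obtain ⟨y, _, _, hy, h1, -⟩ := (hp V).2 (fun w => if w = w0 then 2 else 0) (fun _ => 0)
    (fun _ => 0) (fun w => by split_ifs <;> norm_num) (fun _ => le_rfl) (fun _ => le_rfl)
    (by simp) (by simp) (2 - δ) (by linarith) (B + 1)
  have h2 := h1 w0
  rw [if_pos rfl] at h2
  have h3 := (abs_le.1 h2).1
  have h4 : (w0.mult : ℝ) * pw p.1 w0 (fun _ => y) ≤ prA V p (fun _ => y) := by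
    unfold prA
    rw [Q273.AD.prox_eq]
    have h5 : (w0.mult : ℝ) * pw p.1 w0 (fun _ => y) ≤
        ∑ w : InfinitePlace K, (w.mult : ℝ) * pw p.1 w (fun _ => y) := by
      refine Finset.single_le_sum (f := fun w : InfinitePlace K => (w.mult : ℝ) *
        pw p.1 w (fun _ => y)) (fun w _ => ?_) (Finset.mem_univ w0)
      exact mul_nonneg (Nat.cast_nonneg _) (Real.log_nonneg (le_max_left _ _))
    have h6 : 0 ≤ ∑ v ∈ V, pv v (p.2 v) (fun _ => y) :=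
      Finset.sum_nonneg fun v _ => Real.log_nonneg (le_max_left _ _)
    linarith
  have h7 : y ∈ {y : K | δ * logHeight₁ y ≤ prA V p (fun _ => y)} := by
    show δ * logHeight₁ y ≤ prA V p (fun _ => y)
    rw [← hh_log]
    linarith
  have h8 : hh y ≤ B := hB ⟨y, h7, rfl⟩
  linarith

open scoped Classical in
/-- **almost every adelic point** -/
theorem laws_ae {A : K[X] × K[X] → ℝ} (hA : ∀ f, 0 < A f)
    (hc : ∀ f ∈ Fam K, ∀ θ κ : ℝ, 0 < θ → θ ≤ 1 → 0 ≤ κ → ∀ δ : ℝ, 0 < δ → ∃ C : ℝ,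
      ∀ X : ℝ, 1 ≤ X → {x | x ∈ ExF f.1 f.2 θ κ ∧ mulHeight₁ x ≤ X}.Finite ∧
      ({x | x ∈ ExF f.1 f.2 θ κ ∧ mulHeight₁ x ≤ X}.ncard : ℝ) ≤
        C * X ^ (A f * (θ + κ) + δ))
    [MeasurableSpace (FinA K)] [BorelSpace (FinA K)] (μ : Measure (FinA K))
    [IsFiniteMeasure μ] [μ.IsAddLeftInvariant] :
    ∀ᵐ u : mixedSpace K × FinA K ∂(volume.prod μ), Laws A ((fun _ => u.1, Ph1 u.2) :
      (Fin 1 → mixedSpace K) × FinAd K 1) := by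
  have : Countable K[X] := countable_polyK K
  let ι1 : Type := {q : ℚ × ℚ // 0 < (q.1 : ℝ) ∧ (q.1 : ℝ) ≤ 1 ∧ 0 ≤ (q.2 : ℝ) ∧
    (q.1 : ℝ) + q.2 ≤ 2}
  let ι2 : Type := {q : ℚ × ℚ // 0 < (q.1 : ℝ) ∧ (q.1 : ℝ) ≤ 1 ∧ 0 ≤ (q.2 : ℝ)} × Fam K
  have t1 := thin μ (fun i : ι1 => Ex K (i.1.1 : ℝ) (i.1.2 : ℝ))
    (fun i : ι1 => Gx ((i.1.1 : ℝ) + (i.1.2 : ℝ))) (fun i => Gx_nonneg (by
      have := i.2.1; have := i.2.2.2.1; linarith))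
    (fun i δ hδ => countG K i.2.1 i.2.2.1 i.2.2.2.1 i.2.2.2.2 δ hδ)
  have t2 := thin μ (fun i : ι2 => ExF i.2.1.1 i.2.1.2 (i.1.1.1 : ℝ) (i.1.1.2 : ℝ))
    (fun i : ι2 => A i.2.1 * ((i.1.1.1 : ℝ) + (i.1.1.2 : ℝ))) (fun i => by
      have h1 := i.1.2.1
      have h2 := i.1.2.2.2
      have h3 := hA i.2.1
      positivity)
    (fun i δ hδ => hc i.2.1 i.2.2 _ _ i.1.2.1 i.1.2.2.1 i.1.2.2.2 δ hδ)
  filter_upwards [t1, t2, trk μ] with u h1 h2 h3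
  intro V
  refine ⟨fun θ κ ε hθ hθ1 hκ hε => ⟨fun hs => ?_, fun f hf => ?_⟩, fun δ hδ => inf_of h3 V δ hδ⟩
  · obtain ⟨a, b, ha, ha1, hb, hab⟩ := exists_rat (ρ := min (ε / 4) (2 - (θ + κ))) hθ hθ1 hκ
      (lt_min (by positivity) (by linarith))
    have e1 : (a : ℝ) + b ≤ θ + κ + ε / 4 := hab.trans (by
      have := min_le_left (ε / 4) (2 - (θ + κ)); linarith)
    have e2 : (a : ℝ) + b ≤ 2 := hab.trans (by
      have := min_le_right (ε / 4) (2 - (θ + κ)); linarith)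
    refine (h1 ⟨(a, b), hθ.trans_le ha, ha1, hκ.trans hb, e2⟩ V (ε / 2) (by positivity)).subset ?_
    rintro y ⟨hy1, hy2⟩
    refine ⟨Ex_mono hθ ha hb hy1, le_trans ?_ hy2⟩
    refine mul_le_mul_of_nonneg_right ?_ (zero_le_logHeight₁ y)
    have h5 := Gx_lip (s := θ + κ) (t := (a : ℝ) + b) (by linarith)
    show Gx ((a : ℝ) + b) + ε / 2 ≤ _
    linarith
  · have hAf := hA f
    obtain ⟨a, b, ha, ha1, hb, hab⟩ := exists_rat (ρ := ε / (2 * A f)) hθ hθ1 hκ (by positivity)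
    refine (h2 ⟨⟨(a, b), hθ.trans_le ha, ha1, hκ.trans hb⟩, ⟨f, hf⟩⟩ V (ε / 2)
      (by positivity)).subset ?_
    rintro y ⟨hy1, hy2⟩
    refine ⟨ExF_mono hθ ha hb hy1, le_trans ?_ hy2⟩
    refine mul_le_mul_of_nonneg_right ?_ (zero_le_logHeight₁ y)
    show A f * ((a : ℝ) + b) + ε / 2 ≤ _
    have h5 : A f * ((a : ℝ) + b) ≤ A f * (θ + κ + ε / (2 * A f)) :=
      mul_le_mul_of_nonneg_left hab hAf.le
    have h6 : A f * (θ + κ + ε / (2 * A f)) = A f * (θ + κ) + ε / 2 := by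
      field_simp
    linarith

/-- the Hausdorff dimension for one thin set -/
theorem dim_set {Y : Type} [MetricSpace Y] (c : K → Y) {S : Set K} {s τ : ℝ} (hs : 0 ≤ s)
    (hτ : 0 < τ)
    (hS : ∀ δ : ℝ, 0 < δ → ∃ C : ℝ, ∀ X : ℝ, 1 ≤ X → {x | x ∈ S ∧ mulHeight₁ x ≤ X}.Finite ∧
      ({x | x ∈ S ∧ mulHeight₁ x ≤ X}.ncard : ℝ) ≤ C * X ^ (s + δ)) :
    ∃ E : Set Y, dimH E ≤ ENNReal.ofReal (s / τ) ∧ ∀ ξ : Y, ξ ∉ E → ∀ B : ℝ,
      {y : K | y ∈ S ∧ dist ξ (c y) ≤ B * Real.exp (-(τ * logHeight₁ y))}.Finite := by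
  obtain ⟨E, hE1, hE2⟩ := Q273.Apx.approx S (fun y : K => mulHeight₁ y) c hs hτ hS
  refine ⟨E, hE1, fun ξ hξ B => ?_⟩
  refine (hE2 ξ hξ B).subset ?_
  rintro y ⟨h1, h2⟩
  refine ⟨h1, h2.trans (le_of_eq ?_)⟩
  congr 1
  rw [Real.rpow_def_of_pos (mulHeight₁_pos y)]
  congr 1
  show -(τ * Real.log (mulHeight₁ y)) = _
  ring

/-- the set of dimension zero -/
theorem dim_zero {A : K[X] × K[X] → ℝ} (hA : ∀ f, 0 < A f)
    (hc : ∀ f ∈ Fam K, ∀ θ κ : ℝ, 0 < θ → θ ≤ 1 → 0 ≤ κ → ∀ δ : ℝ, 0 < δ → ∃ C : ℝ,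
      ∀ X : ℝ, 1 ≤ X → {x | x ∈ ExF f.1 f.2 θ κ ∧ mulHeight₁ x ≤ X}.Finite ∧
      ({x | x ∈ ExF f.1 f.2 θ κ ∧ mulHeight₁ x ≤ X}.ncard : ℝ) ≤
        C * X ^ (A f * (θ + κ) + δ))
    {Y : Type} [MetricSpace Y] (c : K → Y) : ∃ E : Set Y, dimH E = 0 ∧ ∀ ξ ∉ E,
      ∀ f ∈ Fam K, ∀ τ : ℝ, 0 < τ → ∃ θ κ : ℝ, 0 < θ ∧ θ ≤ 1 ∧ 0 < κ ∧ ∀ B : ℝ,
        {t : K | t ∈ ExF f.1 f.2 θ κ ∧
          dist ξ (c t) ≤ B * Real.exp (-(τ * logHeight₁ t))}.Finite := by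
  classical
  have : Countable K[X] := countable_polyK K
  have hpos : ∀ j : ℕ, (0 : ℝ) < 1 / ((j : ℝ) + 1) := fun j => by positivity
  have hle1 : ∀ j : ℕ, 1 / ((j : ℝ) + 1) ≤ 1 := fun j => by
    rw [div_le_one (by positivity)]
    have : (0 : ℝ) ≤ j := Nat.cast_nonneg _
    linarith
  have h1 : ∀ (f : Fam K) (k j : ℕ), ∃ E : Set Y,
      dimH E ≤ ENNReal.ofReal (A f.1 * (1 / ((j : ℝ) + 1) + 1 / ((j : ℝ) + 1)) /
        (1 / ((k : ℝ) + 1))) ∧ ∀ ξ : Y, ξ ∉ E → ∀ B : ℝ,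
      {y : K | y ∈ ExF f.1.1 f.1.2 (1 / ((j : ℝ) + 1)) (1 / ((j : ℝ) + 1)) ∧
        dist ξ (c y) ≤ B * Real.exp (-(1 / ((k : ℝ) + 1) * logHeight₁ y))}.Finite := by
    intro f k j
    refine dim_set c ?_ (hpos k) (fun δ hδ => hc f.1 f.2 _ _ (hpos j) (hle1 j) (hpos j).le δ hδ)
    have := hA f.1
    have := hpos j
    positivity
  choose E hE1 hE2 using h1
  refine ⟨⋃ f : Fam K, ⋃ k : ℕ, ⋂ j : ℕ, E f k j, ?_, fun ξ hξ f hf τ hτ => ?_⟩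
  · refine le_antisymm ?_ (zero_le)
    rw [dimH_iUnion]
    refine iSup_le fun f => ?_
    rw [dimH_iUnion]
    refine iSup_le fun k => ?_
    refine ge_of_tendsto' (x := Filter.atTop) (f := fun j : ℕ =>
      ENNReal.ofReal (A f.1 * (1 / ((j : ℝ) + 1) + 1 / ((j : ℝ) + 1)) / (1 / ((k : ℝ) + 1)))) ?_
      (fun j => (dimH_mono (Set.iInter_subset _ j)).trans (hE1 f k j))
    rw [show (0 : ENNReal) = ENNReal.ofReal (A f.1 * (0 + 0) / (1 / ((k : ℝ) + 1))) by simp]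
    refine ENNReal.tendsto_ofReal ?_
    have h2 : Filter.Tendsto (fun j : ℕ => 1 / ((j : ℝ) + 1)) Filter.atTop (nhds 0) :=
      tendsto_one_div_add_atTop_nhds_zero_nat
    exact ((h2.add h2).const_mul _).div_const _
  · obtain ⟨k, hk⟩ := exists_nat_one_div_lt hτ
    have h3 : ξ ∉ ⋂ j : ℕ, E ⟨f, hf⟩ k j := fun h => hξ
      (Set.mem_iUnion.2 ⟨⟨f, hf⟩, Set.mem_iUnion.2 ⟨k, h⟩⟩)
    rw [Set.mem_iInter, not_forall] at h3
    obtain ⟨j, hj⟩ := h3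
    refine ⟨1 / ((j : ℝ) + 1), 1 / ((j : ℝ) + 1), hpos j, hle1 j, hpos j, fun B => ?_⟩
    refine (hE2 ⟨f, hf⟩ k j ξ hj |B|).subset ?_
    rintro t ⟨h4, h5⟩
    refine ⟨h4, h5.trans ?_⟩
    have h6 : Real.exp (-(τ * logHeight₁ t)) ≤ Real.exp (-(1 / ((k : ℝ) + 1) * logHeight₁ t)) := by
      apply Real.exp_le_exp.2
      have := mul_le_mul_of_nonneg_right hk.le (zero_le_logHeight₁ t)
      linarith
    exact (mul_le_mul_of_nonneg_right (le_abs_self B) (Real.exp_pos _).le).trans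
      (mul_le_mul_of_nonneg_left h6 (abs_nonneg B))

end Q273.LF
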